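import Pool.Agent.H30.StB

set_option autoImplicit false

namespace Pool.Agent.Results.MP_06c979_gt.Friedman

open Pool.Agent.H30.Sta Cardinal

/-- If some regular uncountable cardinal `κ ≤ 2 ^ 𝔠` (such as `ℵ₂`) has Friedman's property, a
continuous Hausdorff image of a Stäckel-compact space need not be Stäckel-compact. -/
theorem result (κ : Cardinal.{0}) (hκ : κ.IsRegular) (h0 : ℵ₀ < κ) (hc : κ ≤ 2 ^ (𝔠 : Cardinal.{0}))
    (h : Friedman κ) :
    ∃ (X Y : Type) (_ : TopologicalSpace X) (_ : TopologicalSpace Y) (f : X → Y),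
      Stackel X ∧ T2Space Y ∧ Continuous f ∧ ¬ Stackel (Set.range f) := by
  obtain ⟨h1, h2, h3⟩ := reg_facts hκ h0
  let _ : TopologicalSpace κ.ord.ToType := Preorder.topology _
  have : OrderTopology κ.ord.ToType := ⟨rfl⟩
  obtain ⟨f, f1, f2⟩ := onto (Y := Sp κ.ord.ToType) fun u N hN hu => conv h1 u hN hu
  refine ⟨Cu (Sp κ.ord.ToType), Sp κ.ord.ToType, inferInstance, inferInstance, f,
    Cu_stackel ((mk_subtype_le _).trans ((mk_ord_toType κ).le.trans hc)), inferInstance, f1,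
    fun ⟨_, o, ho⟩ => not_stackel h1 h2 h ⟨inferInstance, LinearOrder.lift'
      (fun y => (⟨y, f2 y⟩ : Set.range f)) fun _ _ e => congrArg Subtype.val e, fun C hC hne => ?_⟩⟩
  obtain ⟨⟨a, ha, ha'⟩, b, hb, hb'⟩ := ho _ (hC.preimage continuous_subtype_val)
    (let ⟨y, hy⟩ := hne; ⟨⟨y, f2 y⟩, hy⟩)
  exact ⟨⟨a, ha, fun x hx => ha' ⟨x, f2 x⟩ hx⟩, b, hb, fun x hx => hb' ⟨x, f2 x⟩ hx⟩

end Pool.Agent.Results.MP_06c979_gt.Friedman
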